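import Pool.Agent.X185.HS.UM

set_option autoImplicit false

/-! Chains of quasi-parabolic structures on groups that surject onto the wreath product. -/

namespace Pool.Agent.X185.HS

open Classical Pointwise

/-- The exponent demanded at place `m` for level `n`. -/
noncomputable def ex (σ : ℝ) (n m : ℤ) : ℕ := ⌈σ * ((n : ℝ) - m)⌉₊

section
variable {A : Type} [Group A] (π : A →* Wr) (hπ : Function.Surjective π)

/-- The family of relations attached to `σ`. -/
noncomputable def UW (σ : ℝ) (hσ : 0 < σ) : UM A where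
  k a := (π a).top
  kmul a b := by rw [map_mul]; rfl
  R n a b := ∀ m : ℤ, (2 : ℤ) ^ (ex σ n m) ∣ (π a).base m - (π b).base m
  refl n a m := by rw [sub_self]; exact dvd_zero _
  symm h m := by
    have := h m
    rw [← dvd_neg, neg_sub] at this
    exact this
  trans h1 h2 m := by
    have := dvd_add (h1 m) (h2 m)
    rwa [sub_add_sub_cancel] at this
  mono hmn h m := by
    refine dvd_trans (pow_dvd_pow 2 ?_) (h m)
    unfold ex
    apply Nat.ceil_mono
    apply mul_le_mul_of_nonneg_left _ hσ.le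
    have : ((_ : ℤ) : ℝ) ≤ _ := Int.cast_le.2 hmn
    linarith
  equiv g a b n := by
    have key : ∀ m, (π (g * a)).base m - (π (g * b)).base m =
        (π a).base (m - (π g).top) - (π b).base (m - (π g).top) := by
      intro m
      rw [map_mul, map_mul, mul_base, mul_base]; ring
    have hex : ∀ m, ex σ (n + (π g).top) m = ex σ n (m - (π g).top) := by
      intro m
      unfold ex
      congr 2
      push_cast; ring
    constructor
    · intro h m
      rw [key, hex]
      exact h _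
    · intro h m
      have := h (m + (π g).top)
      rw [key, hex, add_sub_cancel_right] at this
      exact this
  ex a b := by
    -- all places of difference are bounded below
    obtain ⟨N, hN⟩ : ∃ N : ℤ, ∀ m < N, (π a).base m - (π b).base m = 0 := by
      have hfin := ((π a).base - (π b).base).support.finite_toSet
      obtain ⟨N, hN⟩ := hfin.bddBelow
      refine ⟨N, fun m hm => ?_⟩
      by_contra hne
      have hmem : m ∈ (((π a).base - (π b).base).support : Set ℤ) := by
        simp only [Finset.mem_coe, Finsupp.mem_support_iff, Finsupp.sub_apply]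
        exact hne
      have := hN hmem
      omega
    refine ⟨N, fun m => ?_⟩
    rcases lt_or_ge m N with h | h
    · rw [hN m h]; exact dvd_zero _
    · have : ex σ N m = 0 := by
        unfold ex
        rw [Nat.ceil_eq_zero]
        have h1 : ((N : ℝ)) ≤ m := by exact_mod_cast h
        nlinarith
      rw [this, pow_zero]; exact one_dvd _
  t := (hπ ⟨0, 1⟩).choose
  kt := by rw [(hπ ⟨0, 1⟩).choose_spec]
  Rt n m := by
    rw [(hπ ⟨0, 1⟩).choose_spec, map_one]
    simp
  s := (hπ ⟨Finsupp.single (-1) 1, 0⟩).choose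
  ks := by rw [(hπ ⟨Finsupp.single (-1) 1, 0⟩).choose_spec]
  Rs := by
    intro h
    have h1 := h (-1)
    rw [(hπ ⟨Finsupp.single (-1) 1, 0⟩).choose_spec, map_one] at h1
    simp only [one_base, Finsupp.coe_zero, Pi.zero_apply, Finsupp.single_eq_same, zero_sub,
      dvd_neg] at h1
    have h2 : 1 ≤ ex σ 0 (-1) := by
      unfold ex
      rw [Nat.one_le_iff_ne_zero, ← Nat.pos_iff_ne_zero, Nat.ceil_pos]
      push_cast
      linarith
    have h3 : (2 : ℤ) ∣ 1 := dvd_trans (dvd_pow_self 2 (by omega)) h1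
    norm_num at h3

lemma UW_X_subset {σ τ : ℝ} (hσ : 0 < σ) (hτ : 0 < τ) (h : σ ≤ τ) :
    (UW π hπ τ hτ).X ⊆ (UW π hπ σ hσ).X := by
  rintro x (⟨hx1, hx2⟩ | hx)
  · refine Or.inl ⟨hx1, fun m => ?_⟩
    rcases le_or_gt 0 m with hm | hm
    · have : ex σ 0 m = 0 := by
        unfold ex
        rw [Nat.ceil_eq_zero]
        have h1 : (0 : ℝ) ≤ m := by exact_mod_cast hm
        push_cast
        nlinarith
      rw [this, pow_zero]; exact one_dvd _
    · refine dvd_trans (pow_dvd_pow 2 ?_) (hx2 m)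
      unfold ex
      apply Nat.ceil_mono
      have h1 : (m : ℝ) < 0 := by exact_mod_cast hm
      push_cast
      nlinarith
  · exact Or.inr hx

lemma UW_not_below {σ τ : ℝ} (hσ : 0 < σ) (hτ : 0 < τ) (h : σ < τ) :
    ¬ Below (UW π hπ τ hτ).X (UW π hπ σ hσ).X := by
  rintro ⟨C, hC⟩
  -- a large height
  obtain ⟨n, hn⟩ := exists_nat_gt ((C * τ + 1) / (τ - σ))
  have hτσ : 0 < τ - σ := by linarith
  rw [div_lt_iff₀ hτσ] at hn
  obtain ⟨y, hy⟩ := hπ ⟨Finsupp.single (-(n : ℤ)) (2 ^ ⌈σ * n⌉₊), 0⟩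
  have hyX : y ∈ (UW π hπ σ hσ).X := by
    refine Or.inl ⟨?_, fun m => ?_⟩
    · show (π y).top = 0
      rw [hy]
    · rw [hy, map_one]
      simp only [one_base, Finsupp.coe_zero, Pi.zero_apply, zero_sub, dvd_neg]
      by_cases hm : m = -(n : ℤ)
      · subst hm
        rw [Finsupp.single_eq_same]
        unfold ex
        push_cast
        simp
      · rw [Finsupp.single_eq_of_ne hm]
        exact dvd_zero _
  have h1 := hC y hyX
  have h2 := (UW π hπ τ hτ).wl_lower y
  obtain ⟨l, hl⟩ : ∃ l, l = (UW π hπ τ hτ).lev 1 y := ⟨_, rfl⟩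
  have h3 := (UW π hπ τ hτ).lev_R 1 y
  have h4 := (UW π hπ τ hτ).lev_le_left 1 y
  rw [UM.k_one, ← hl] at h4
  rw [← hl] at h3
  have hky : (UW π hπ τ hτ).k y = 0 := by
    show (π y).top = 0
    rw [hy]
  unfold UM.Di at h2
  rw [UM.k_one, hky, ← hl] at h2
  have h5 : -(C : ℤ) ≤ l := by omega
  have h6 := h3 (-(n : ℤ))
  rw [hy, map_one] at h6
  simp only [one_base, Finsupp.coe_zero, Pi.zero_apply, zero_sub, dvd_neg,
    Finsupp.single_eq_same] at h6
  have h7 : ex τ l (-(n : ℤ)) ≤ ⌈σ * n⌉₊ := by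
    by_contra hlt
    push Not at hlt
    have := dvd_trans (pow_dvd_pow (2 : ℤ) (Nat.succ_le_of_lt hlt)) h6
    rw [pow_succ] at this
    have h8 : (2 : ℤ) ∣ 1 := by
      have hne : (2 : ℤ) ^ ⌈σ * n⌉₊ ≠ 0 := by positivity
      have h9 : (2 : ℤ) ^ ⌈σ * n⌉₊ * 2 ∣ 2 ^ ⌈σ * n⌉₊ * 1 := by rwa [mul_one]
      exact (mul_dvd_mul_iff_left hne).1 h9
    norm_num at h8
  have h8 : τ * ((l : ℝ) + n) ≤ σ * n + 1 := by
    have a1 : τ * ((l : ℝ) - (-(n : ℤ) : ℤ)) ≤ ex τ l (-(n : ℤ)) := Nat.le_ceil _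
    have a2 : ((ex τ l (-(n : ℤ)) : ℕ) : ℝ) ≤ ⌈σ * n⌉₊ := by exact_mod_cast h7
    have a3 : (⌈σ * n⌉₊ : ℝ) < σ * n + 1 := Nat.ceil_lt_add_one (by positivity)
    push_cast at a1
    have e : τ * ((l : ℝ) - -(n : ℝ)) = τ * ((l : ℝ) + n) := by ring
    linarith
  have h9 : -(C : ℝ) ≤ l := by exact_mod_cast h5
  nlinarith

/-- The structure attached to `exp x`. -/
noncomputable def QPx (x : ℝ) : QPSet A :=
  ⟨(UW π hπ (Real.exp x) (Real.exp_pos x)).X, UM.closure_X _, UM.X_hyp _, UM.X_QP _⟩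

lemma QPx_le (x y : ℝ) : QPx π hπ x ≤ QPx π hπ y ↔ x ≤ y := by
  constructor
  · intro h
    by_contra hlt
    push Not at hlt
    exact UW_not_below π hπ (Real.exp_pos y) (Real.exp_pos x) (Real.exp_lt_exp.2 hlt) h
  · intro h
    exact below_of_subset (UW_X_subset π hπ _ _ (Real.exp_le_exp.2 h))

include hπ in
theorem chain_of_surj : ∃ f : ℝ ↪o HQP A,
    IsChain (· ≤ ·) (Set.range f) ∧ ¬ (Set.range f).Countable := by
  let f : ℝ ↪o HQP A := OrderEmbedding.ofMapLEIff
    (fun x => toAntisymmetrization (· ≤ ·) (QPx π hπ x)) (fun x y => by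
      rw [toAntisymmetrization_le_toAntisymmetrization_iff]
      exact QPx_le π hπ x y)
  refine ⟨f, ?_, ?_⟩
  · rintro _ ⟨x, rfl⟩ _ ⟨y, rfl⟩ _
    rcases le_total x y with h | h
    · exact Or.inl (f.le_iff_le.2 h)
    · exact Or.inr (f.le_iff_le.2 h)
  · intro h
    have h1 := h.preimage f.injective
    have h2 : f ⁻¹' Set.range f = Set.univ := Set.preimage_range f
    rw [h2] at h1
    exact Cardinal.not_countable_real h1

end

/-- The homomorphism from the free group of rank two. -/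
noncomputable def F2toWr : FreeGroup (Fin 2) →* Wr :=
  FreeGroup.lift ![⟨0, 1⟩, ⟨Finsupp.single 0 1, 0⟩]

lemma F2toWr_surj : Function.Surjective F2toWr := by
  have ht : (⟨0, 1⟩ : Wr) ∈ F2toWr.range := ⟨FreeGroup.of 0, by simp [F2toWr]⟩
  have ha : (⟨Finsupp.single 0 1, 0⟩ : Wr) ∈ F2toWr.range := ⟨FreeGroup.of 1, by simp [F2toWr]⟩
  have htn : ∀ n : ℤ, (⟨0, n⟩ : Wr) ∈ F2toWr.range := by
    have h1 : ∀ n : ℕ, (⟨0, n⟩ : Wr) ∈ F2toWr.range := by
      intro n
      induction n with
      | zero => exact one_mem _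
      | succ n ih =>
        have := mul_mem ih ht
        have e : (⟨0, n⟩ : Wr) * ⟨0, 1⟩ = ⟨0, ((n + 1 : ℕ) : ℤ)⟩ :=
          Wr.ext' (fun m => by simp) (by simp)
        rwa [e] at this
    intro n
    rcases Int.natAbs_eq n with h | h
    · rw [h]; exact h1 _
    · have := inv_mem (h1 n.natAbs)
      have e : (⟨0, n.natAbs⟩ : Wr)⁻¹ = ⟨0, n⟩ :=
        Wr.ext' (fun m => by simp) (by show -((n.natAbs : ℕ) : ℤ) = n; omega)
      rwa [e] at this
  have han : ∀ c : ℤ, (⟨Finsupp.single 0 c, 0⟩ : Wr) ∈ F2toWr.range := by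
    have h1 : ∀ n : ℕ, (⟨Finsupp.single 0 n, 0⟩ : Wr) ∈ F2toWr.range := by
      intro n
      induction n with
      | zero =>
        have e : (⟨Finsupp.single 0 ((0 : ℕ) : ℤ), 0⟩ : Wr) = 1 :=
          Wr.ext' (fun m => by simp) rfl
        rw [e]; exact one_mem _
      | succ n ih =>
        have := mul_mem ih ha
        have e : (⟨Finsupp.single 0 n, 0⟩ : Wr) * ⟨Finsupp.single 0 1, 0⟩ =
            ⟨Finsupp.single 0 ((n + 1 : ℕ) : ℤ), 0⟩ := by
          refine Wr.ext' (fun m => ?_) (by simp)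
          rw [mul_base]
          simp only [sub_zero]
          rw [← Finsupp.add_apply, ← Finsupp.single_add]
          push_cast; rfl
        rwa [e] at this
    intro n
    rcases Int.natAbs_eq n with h | h
    · rw [h]; exact h1 _
    · have := inv_mem (h1 n.natAbs)
      have e : (⟨Finsupp.single 0 (n.natAbs : ℤ), 0⟩ : Wr)⁻¹ = ⟨Finsupp.single 0 n, 0⟩ := by
        refine Wr.ext' (fun m => ?_) (by simp)
        rw [inv_base]
        simp only [add_zero]
        rw [← Finsupp.neg_apply, ← Finsupp.single_neg, ← h]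
      rwa [e] at this
  have hbase : ∀ f : ℤ →₀ ℤ, (⟨f, 0⟩ : Wr) ∈ F2toWr.range := by
    intro f
    induction f using Finsupp.induction_linear with
    | zero => exact one_mem _
    | add f g hf hg =>
      have := mul_mem hf hg
      have e : (⟨f, 0⟩ : Wr) * ⟨g, 0⟩ = ⟨f + g, 0⟩ := Wr.ext' (fun m => by simp) (by simp)
      rwa [e] at this
    | single m c =>
      have := mul_mem (mul_mem (htn m) (han c)) (inv_mem (htn m))
      have e : (⟨0, m⟩ : Wr) * ⟨Finsupp.single 0 c, 0⟩ * (⟨0, m⟩)⁻¹ = ⟨Finsupp.single m c, 0⟩ := by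
        refine Wr.ext' (fun l => ?_) (by simp)
        rw [mul_base, mul_base, inv_base]
        simp only [Finsupp.coe_zero, Pi.zero_apply, neg_zero, add_zero, zero_add,
          Finsupp.single_apply]
        by_cases h : m = l
        · subst h; simp
        · have h' : ¬ (0 = l - m) := by omega
          simp [h, h']
      rwa [e] at this
  intro w
  have := mul_mem (hbase w.base) (htn w.top)
  have e : (⟨w.base, 0⟩ : Wr) * ⟨0, w.top⟩ = w := Wr.ext' (fun m => by simp) (by simp)
  rwa [e] at this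

end Pool.Agent.X185.HS
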