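import Mathlib

set_option autoImplicit false

/-! Hyperbolic structures on groups. -/

namespace Pool.Agent.X185.HS

open Pointwise

section defs
variable {A : Type} [Group A]

/-- Word length with respect to `S` (as an element of the symmetrised set `S ∪ S⁻¹`). -/
noncomputable def wlen (S : Set A) (g : A) : ℕ := sInf {n : ℕ | g ∈ (S ∪ S⁻¹) ^ n}

/-- Gromov product based at the identity in the Cayley graph `Γ(A, S)`. -/
noncomputable def gpr (S : Set A) (a b : A) : ℝ :=
  ((wlen S a : ℝ) + (wlen S b : ℝ) - (wlen S (a⁻¹ * b) : ℝ)) / 2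

/-- The Cayley graph is Gromov hyperbolic (four point condition on its vertices). -/
def IsHyp (S : Set A) : Prop :=
  ∃ δ : ℝ, ∀ x y z : A, min (gpr S x y) (gpr S y z) - δ ≤ gpr S x z

/-- Two sequences of vertices converge to one common point of the Gromov boundary. -/
def SameLim (S : Set A) (x y : ℕ → A) : Prop :=
  ∀ K : ℝ, ∃ N : ℕ, ∀ m n : ℕ, N ≤ m → N ≤ n → K ≤ gpr S (x m) (y n)

/-- A sequence of vertices converges to a point of the Gromov boundary. -/
def ToInf (S : Set A) (x : ℕ → A) : Prop := SameLim S x x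

/-- The element `g` acts loxodromically on the Cayley graph. -/
def IsLox (S : Set A) (g : A) : Prop :=
  ∃ c : ℝ, 0 < c ∧ ∀ n : ℕ, c * (n : ℝ) ≤ (wlen S (g ^ n) : ℝ)

/-- Quasi-parabolic: there is a loxodromic element, the group fixes a point of the Gromov
boundary of the Cayley graph, and the limit set is infinite. -/
def IsQP (S : Set A) : Prop :=
  (∃ g : A, IsLox S g) ∧
  (∃ x : ℕ → A, ToInf S x ∧ ∀ g : A, SameLim S (fun n => g * x n) x) ∧
  (∃ y : ℕ → ℕ → A, (∀ i, ToInf S (y i)) ∧ ∀ i j, i ≠ j → ¬ SameLim S (y i) (y j))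

end defs

/-- Generating sets of `A` that give a quasi-parabolic hyperbolic structure. -/
def QPSet (A : Type) [Group A] : Type :=
  {S : Set A // Subgroup.closure S = ⊤ ∧ IsHyp S ∧ IsQP S}

/-- `X ≼ Y` when the elements of `Y` have bounded length with respect to `X`. -/
def Below {A : Type} [Group A] (X Y : Set A) : Prop := ∃ C : ℕ, ∀ y ∈ Y, wlen X y ≤ C

section word
variable {A : Type} [Group A]

lemma inv_pow_set (S : Set A) {n : ℕ} {g : A} (h : g ∈ (S ∪ S⁻¹) ^ n) :
    g⁻¹ ∈ (S ∪ S⁻¹) ^ n := by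
  have e : ((S ∪ S⁻¹) ^ n)⁻¹ = (S ∪ S⁻¹) ^ n := by
    rw [← inv_pow, Set.union_inv, inv_inv, Set.union_comm]
  rw [← e]
  simpa using h

lemma exists_pow_mem {S : Set A} (hS : Subgroup.closure S = ⊤) (g : A) :
    ∃ n : ℕ, g ∈ (S ∪ S⁻¹) ^ n := by
  have hg : g ∈ Subgroup.closure S := by rw [hS]; trivial
  induction hg using Subgroup.closure_induction with
  | mem x hx => exact ⟨1, by rw [pow_one]; exact Or.inl hx⟩
  | one => exact ⟨0, by rw [pow_zero]; rfl⟩
  | mul x y _ _ hx hy =>
    obtain ⟨m, hm⟩ := hx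
    obtain ⟨n, hn⟩ := hy
    exact ⟨m + n, by rw [pow_add]; exact Set.mul_mem_mul hm hn⟩
  | inv x _ hx =>
    obtain ⟨m, hm⟩ := hx
    exact ⟨m, inv_pow_set S hm⟩

lemma wlen_mem {S : Set A} (hS : Subgroup.closure S = ⊤) (g : A) :
    g ∈ (S ∪ S⁻¹) ^ (wlen S g) := Nat.sInf_mem (exists_pow_mem hS g)

lemma wlen_le {S : Set A} {g : A} {n : ℕ} (h : g ∈ (S ∪ S⁻¹) ^ n) : wlen S g ≤ n :=
  Nat.sInf_le h

lemma wlen_mul {S : Set A} (hS : Subgroup.closure S = ⊤) (g h : A) :
    wlen S (g * h) ≤ wlen S g + wlen S h :=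
  wlen_le (by rw [pow_add]; exact Set.mul_mem_mul (wlen_mem hS g) (wlen_mem hS h))

lemma wlen_inv {S : Set A} (hS : Subgroup.closure S = ⊤) (g : A) : wlen S g⁻¹ = wlen S g := by
  have key : ∀ g, wlen S g⁻¹ ≤ wlen S g := fun g => wlen_le (inv_pow_set S (wlen_mem hS g))
  apply le_antisymm (key g)
  have := key g⁻¹
  rwa [inv_inv] at this

lemma wlen_gen {S : Set A} {s : A} (hs : s ∈ S) : wlen S s ≤ 1 :=
  wlen_le (by rw [pow_one]; exact Or.inl hs)

lemma wlen_one (S : Set A) : wlen S (1 : A) = 0 := by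
  have : wlen S (1 : A) ≤ 0 := wlen_le (by rw [pow_zero]; rfl)
  omega

lemma below_of_subset {X Y : Set A} (h : Y ⊆ X) : Below X Y :=
  ⟨1, fun y hy => wlen_gen (h hy)⟩

lemma Below.trans {X Y Z : Set A} (hX : Subgroup.closure X = ⊤) (hY : Subgroup.closure Y = ⊤)
    (h1 : Below X Y) (h2 : Below Y Z) : Below X Z := by
  obtain ⟨C, hC⟩ := h1
  obtain ⟨D, hD⟩ := h2
  have key : ∀ n : ℕ, ∀ g ∈ (Y ∪ Y⁻¹) ^ n, wlen X g ≤ n * C := by
    intro n
    induction n with
    | zero =>
      intro g hg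
      rw [pow_zero, Set.mem_one] at hg
      rw [hg, wlen_one]; simp
    | succ n ih =>
      intro g hg
      rw [pow_succ] at hg
      obtain ⟨a, ha, b, hb, rfl⟩ := Set.mem_mul.1 hg
      have a1 := ih a ha
      have a2 := wlen_mul hX a b
      have a3 : wlen X b ≤ C := by
        rcases hb with hb | hb
        · exact hC b hb
        · rw [← wlen_inv hX]; exact hC _ hb
      calc wlen X (a * b) ≤ wlen X a + wlen X b := a2
        _ ≤ n * C + C := by omega
        _ = (n + 1) * C := by ring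
  refine ⟨D * C, fun z hz => ?_⟩
  have h3 := key _ z (wlen_mem hY z)
  exact h3.trans (Nat.mul_le_mul_right C (hD z hz))

end word

instance (A : Type) [Group A] : Preorder (QPSet A) where
  le X Y := Below X.1 Y.1
  le_refl X := below_of_subset (le_refl X.1)
  le_trans X Y Z h1 h2 := Below.trans X.2.1 Y.2.1 h1 h2

/-- The poset of quasi-parabolic hyperbolic structures on `A`: classes of generating sets that are
comparable both ways, ordered by `Below`. -/
abbrev HQP (A : Type) [Group A] : Type := Antisymmetrization (QPSet A) (· ≤ ·)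

/-- The restricted wreath product of `ℤ` with `ℤ`: a finitely supported function `ℤ → ℤ` together
with an element of `ℤ` that acts by shifting coordinates. -/
@[ext] structure Wr where
  base : ℤ →₀ ℤ
  top : ℤ

/-- Shift of coordinates: `shift n f m = f (m - n)`. -/
noncomputable def shift (n : ℤ) (f : ℤ →₀ ℤ) : ℤ →₀ ℤ := f.equivMapDomain (Equiv.addRight n)

lemma shift_apply (n m : ℤ) (f : ℤ →₀ ℤ) : shift n f m = f (m - n) := by
  unfold shift
  rw [Finsupp.equivMapDomain_apply]
  rfl

noncomputable instance : Mul Wr := ⟨fun a b => ⟨a.base + shift a.top b.base, a.top + b.top⟩⟩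
noncomputable instance : One Wr := ⟨⟨0, 0⟩⟩
noncomputable instance : Inv Wr := ⟨fun a => ⟨- shift (-a.top) a.base, -a.top⟩⟩

@[simp] lemma mul_base (a b : Wr) (m : ℤ) : (a * b).base m = a.base m + b.base (m - a.top) := by
  show (a.base + shift a.top b.base) m = _
  rw [Finsupp.add_apply, shift_apply]
@[simp] lemma mul_top (a b : Wr) : (a * b).top = a.top + b.top := rfl
@[simp] lemma one_base : (1 : Wr).base = 0 := rfl
@[simp] lemma one_top : (1 : Wr).top = 0 := rfl
@[simp] lemma inv_base (a : Wr) (m : ℤ) : a⁻¹.base m = - a.base (m + a.top) := by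
  show (- shift (-a.top) a.base) m = _
  rw [Finsupp.neg_apply, shift_apply, sub_neg_eq_add]
@[simp] lemma inv_top (a : Wr) : a⁻¹.top = -a.top := rfl

lemma Wr.ext' {a b : Wr} (h1 : ∀ m, a.base m = b.base m) (h2 : a.top = b.top) : a = b :=
  Wr.ext (Finsupp.ext h1) h2

noncomputable instance : Group Wr :=
  Group.ofLeftAxioms
    (fun a b c => Wr.ext' (fun m => by simp [add_assoc, sub_sub]) (by simp [add_assoc]))
    (fun a => Wr.ext' (fun m => by simp) (by simp))
    (fun a => Wr.ext' (fun m => by simp) (by simp))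

end Pool.Agent.X185.HS
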