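import Pool.Agent.X185.HS.Defs

set_option autoImplicit false

/-! Quasi-parabolic structures from equivariant ultrametric relations. -/

namespace Pool.Agent.X185.HS

open Classical Pointwise

/-- Equivariant family of equivalence relations with a level shift. -/
structure UM (A : Type) [Group A] where
  k : A → ℤ
  kmul : ∀ a b, k (a * b) = k a + k b
  R : ℤ → A → A → Prop
  refl : ∀ n a, R n a a
  symm : ∀ {n a b}, R n a b → R n b a
  trans : ∀ {n a b c}, R n a b → R n b c → R n a c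
  mono : ∀ {m n a b}, m ≤ n → R n a b → R m a b
  equiv : ∀ g a b n, R n a b ↔ R (n + k g) (g * a) (g * b)
  ex : ∀ a b, ∃ n, R n a b
  t : A
  kt : k t = 1
  Rt : ∀ n, R n 1 t
  s : A
  ks : k s = 0
  Rs : ¬ R 0 1 s

namespace UM
variable {A : Type} [Group A] (U : UM A)

@[simp] lemma k_mul (a b : A) : U.k (a * b) = U.k a + U.k b := U.kmul a b
@[simp] lemma k_one : U.k 1 = 0 := by
  have := U.kmul 1 1
  rw [mul_one] at this
  omega
@[simp] lemma k_inv (a : A) : U.k a⁻¹ = - U.k a := by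
  have := U.kmul a a⁻¹
  rw [mul_inv_cancel, k_one] at this
  omega
@[simp] lemma k_pow (a : A) (n : ℕ) : U.k (a ^ n) = n * U.k a := by
  induction n with
  | zero => simp
  | succ n ih => rw [pow_succ, k_mul, ih]; push_cast; ring

lemma exists_lev (a b : A) : ∃ l : ℤ, ∀ n : ℤ,
    n ≤ l ↔ (n ≤ U.k a ∧ n ≤ U.k b ∧ U.R n a b) := by
  obtain ⟨N, hN⟩ := U.ex a b
  obtain ⟨l, h1, h2⟩ := Int.exists_greatest_of_bdd
    (P := fun n => n ≤ U.k a ∧ n ≤ U.k b ∧ U.R n a b)
    ⟨U.k a, fun z hz => hz.1⟩ ⟨min N (min (U.k a) (U.k b)), by omega, by omega,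
      U.mono (by omega) hN⟩
  refine ⟨l, fun n => ⟨fun h => ⟨h.trans h1.1, h.trans h1.2.1, U.mono h h1.2.2⟩,
    fun h => h2 n h⟩⟩

/-- The level of the join. -/
noncomputable def lev (a b : A) : ℤ := (U.exists_lev a b).choose

lemma le_lev (a b : A) (n : ℤ) :
    n ≤ U.lev a b ↔ (n ≤ U.k a ∧ n ≤ U.k b ∧ U.R n a b) :=
  (U.exists_lev a b).choose_spec n

lemma lev_le_left (a b : A) : U.lev a b ≤ U.k a := ((U.le_lev a b _).1 le_rfl).1
lemma lev_le_right (a b : A) : U.lev a b ≤ U.k b := ((U.le_lev a b _).1 le_rfl).2.1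
lemma lev_R (a b : A) : U.R (U.lev a b) a b := ((U.le_lev a b _).1 le_rfl).2.2

lemma lev_comm (a b : A) : U.lev a b = U.lev b a := by
  apply le_antisymm
  · rw [le_lev]; exact ⟨U.lev_le_right a b, U.lev_le_left a b, U.symm (U.lev_R a b)⟩
  · rw [le_lev]; exact ⟨U.lev_le_right b a, U.lev_le_left b a, U.symm (U.lev_R b a)⟩

lemma lev_ultra (a b c : A) : min (U.lev a b) (U.lev b c) ≤ U.lev a c := by
  rw [le_lev]
  exact ⟨(min_le_left _ _).trans (U.lev_le_left a b), (min_le_right _ _).trans (U.lev_le_right b c),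
    U.trans (U.mono (min_le_left _ _) (U.lev_R a b)) (U.mono (min_le_right _ _) (U.lev_R b c))⟩

lemma lev_self (a : A) : U.lev a a = U.k a := by
  apply le_antisymm (U.lev_le_left a a)
  rw [le_lev]
  exact ⟨le_rfl, le_rfl, U.refl _ _⟩

lemma lev_mul (g a b : A) : U.lev (g * a) (g * b) = U.k g + U.lev a b := by
  have key : ∀ n, n ≤ U.lev (g * a) (g * b) ↔ n ≤ U.k g + U.lev a b := by
    intro n
    rw [le_lev]
    have h1 : n ≤ U.k g + U.lev a b ↔ n - U.k g ≤ U.lev a b := by omega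
    rw [h1, le_lev]
    have h2 := U.equiv g a b (n - U.k g)
    rw [sub_add_cancel] at h2
    rw [h2, k_mul, k_mul]
    constructor
    · rintro ⟨h3, h4, h5⟩; exact ⟨by omega, by omega, h5⟩
    · rintro ⟨h3, h4, h5⟩; exact ⟨by omega, by omega, h5⟩
  exact le_antisymm ((key _).1 le_rfl) ((key _).2 le_rfl)

/-- The tree distance. -/
noncomputable def Di (a b : A) : ℤ := U.k a + U.k b - 2 * U.lev a b

lemma Di_mul (g a b : A) : U.Di (g * a) (g * b) = U.Di a b := by
  unfold Di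
  rw [lev_mul, k_mul, k_mul]; ring

lemma Di_tri (a b c : A) : U.Di a c ≤ U.Di a b + U.Di b c := by
  unfold Di
  have h1 := U.lev_ultra a b c
  have h2 := U.lev_le_right a b
  have h3 := U.lev_le_left b c
  omega

lemma Di_one_inv (g : A) : U.Di g 1 = U.Di 1 g := by
  unfold Di
  rw [lev_comm]; ring

lemma Di_inv (a b : A) : U.Di 1 (a⁻¹ * b) = U.Di a b := by
  have := U.Di_mul a 1 (a⁻¹ * b)
  rw [mul_one, mul_inv_cancel_left] at this
  exact this.symm

lemma Di_kappa (g : A) : |U.k g| ≤ U.Di 1 g := by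
  unfold Di
  have h1 := U.lev_le_left 1 g
  have h2 := U.lev_le_right 1 g
  have h3 := U.k_one
  rw [abs_le]
  constructor <;> omega

/-- The stabiliser of the base vertex. -/
def Q : Set A := {h | U.k h = 0 ∧ U.R 0 1 h}

/-- Generating set. -/
def X : Set A := U.Q ∪ {U.t}

lemma Di_X {x : A} (hx : x ∈ U.X ∪ U.X⁻¹) : U.Di 1 x ≤ 1 := by
  have key : ∀ x ∈ U.X, U.Di 1 x ≤ 1 := by
    rintro x (hx | hx)
    · have h1 : 0 ≤ U.lev 1 x := by
        rw [le_lev]
        exact ⟨by rw [k_one], by rw [hx.1], hx.2⟩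
      unfold Di
      rw [k_one, hx.1]
      omega
    · rw [Set.mem_singleton_iff] at hx
      subst hx
      have : 0 ≤ U.lev 1 U.t := by
        rw [le_lev]
        exact ⟨by rw [k_one], by rw [U.kt]; omega, U.Rt 0⟩
      unfold Di
      rw [k_one, U.kt]
      omega
  rcases hx with hx | hx
  · exact key x hx
  · have := key _ hx
    have h2 := U.Di_inv x 1
    rw [mul_one, Di_one_inv] at h2
    omega

lemma Di_le_of_mem {n : ℕ} {g : A} (h : g ∈ (U.X ∪ U.X⁻¹) ^ n) : U.Di 1 g ≤ n := by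
  induction n generalizing g with
  | zero =>
    rw [pow_zero] at h
    rw [Set.mem_one] at h
    subst h
    unfold Di
    rw [lev_self]; simp
  | succ n ih =>
    rw [pow_succ] at h
    obtain ⟨a, ha, b, hb, rfl⟩ := Set.mem_mul.1 h
    have h1 := ih ha
    have h2 := U.Di_X hb
    have h3 := U.Di_tri 1 a (a * b)
    have h4 := U.Di_inv a (a * b)
    rw [inv_mul_cancel_left] at h4
    push_cast
    omega

lemma t_pow_mem (n : ℕ) : U.t ^ n ∈ (U.X ∪ U.X⁻¹) ^ n :=
  Set.pow_mem_pow (Or.inl (Or.inr rfl))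

lemma R_t (n : ℤ) (a : A) : U.R n a (a * U.t) := by
  have := (U.equiv a 1 U.t (n - U.k a)).1 (U.Rt _)
  rwa [sub_add_cancel, mul_one] at this

lemma R_tpow (n : ℤ) (a : A) (m : ℕ) : U.R n a (a * U.t ^ m) := by
  induction m with
  | zero => rw [pow_zero, mul_one]; exact U.refl _ _
  | succ m ih =>
    rw [pow_succ, ← mul_assoc]
    exact U.trans ih (U.R_t n _)

lemma R_tinv (n : ℤ) (a : A) (m : ℕ) : U.R n a (a * (U.t ^ m)⁻¹) := by
  have := U.R_tpow n (a * (U.t ^ m)⁻¹) m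
  rw [inv_mul_cancel_right] at this
  exact U.symm this

lemma mem_of_Di (g : A) : g ∈ (U.X ∪ U.X⁻¹) ^ ((U.Di 1 g).toNat + 1) := by
  obtain ⟨l, hl⟩ : ∃ l, l = U.lev 1 g := ⟨_, rfl⟩
  have h1 := U.lev_le_left 1 g
  have h2 := U.lev_le_right 1 g
  have h3 := U.lev_R 1 g
  rw [← hl] at h1 h2 h3
  rw [k_one] at h1
  have hD : U.Di 1 g = U.k g - 2 * l := by unfold Di; rw [k_one, ← hl]; ring
  obtain ⟨p, hp⟩ : ∃ p : ℕ, (p : ℤ) = -l := ⟨(-l).toNat, by omega⟩
  obtain ⟨q, hq⟩ : ∃ q : ℕ, (q : ℤ) = U.k g - l := ⟨(U.k g - l).toNat, by omega⟩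
  have hsum : (U.Di 1 g).toNat + 1 = p + 1 + q := by omega
  obtain ⟨h, hh⟩ : ∃ h : A, h = U.t ^ p * g * (U.t ^ q)⁻¹ := ⟨_, rfl⟩
  have hmem : h ∈ U.Q := by
    refine ⟨?_, ?_⟩
    · rw [hh]; simp [U.kt]; omega
    · rw [hh]
      have h4 := (U.equiv (U.t ^ p) _ _ _).1 h3
      rw [k_pow, U.kt, mul_one, mul_one] at h4
      have h5 : U.R (l + p) 1 (U.t ^ p * g) := by
        have h6 := U.R_tpow (l + p) 1 p
        rw [one_mul] at h6
        exact U.trans h6 h4
      have h7 := U.R_tinv (l + p) (U.t ^ p * g) q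
      exact U.mono (by omega) (U.trans h5 h7)
  have e : g = (U.t ^ p)⁻¹ * h * U.t ^ q := by rw [hh]; group
  rw [hsum, pow_add, pow_add, e, pow_one]
  exact Set.mul_mem_mul (Set.mul_mem_mul (inv_pow_set U.X (U.t_pow_mem p)) (Or.inl (Or.inl hmem)))
    (U.t_pow_mem q)

lemma closure_X : Subgroup.closure U.X = ⊤ := by
  rw [eq_top_iff]
  intro g _
  have key : ∀ n : ℕ, ∀ g : A, g ∈ (U.X ∪ U.X⁻¹) ^ n → g ∈ Subgroup.closure U.X := by
    intro n
    induction n with
    | zero =>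
      intro g hg
      rw [pow_zero, Set.mem_one] at hg
      rw [hg]; exact one_mem _
    | succ n ih =>
      intro g hg
      rw [pow_succ] at hg
      obtain ⟨a, ha, b, hb, rfl⟩ := Set.mem_mul.1 hg
      refine mul_mem (ih a ha) ?_
      rcases hb with hb | hb
      · exact Subgroup.subset_closure hb
      · have := Subgroup.subset_closure (k := U.X) hb
        exact inv_mem_iff.1 this
  exact key _ g (U.mem_of_Di g)

lemma wl_lower (g : A) : U.Di 1 g ≤ wlen U.X g := U.Di_le_of_mem (wlen_mem U.closure_X g)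

lemma wl_upper (g : A) : (wlen U.X g : ℤ) ≤ U.Di 1 g + 1 := by
  have h1 := wlen_le (U.mem_of_Di g)
  have h2 := U.Di_kappa g
  have h3 := abs_nonneg (U.k g)
  omega

/-- Gromov product of the tree distance. -/
noncomputable def gD (a b : A) : ℤ := U.lev a b - U.lev 1 a - U.lev 1 b

lemma gpr_bounds (a b : A) :
    (U.gD a b : ℝ) - 1 ≤ gpr U.X a b ∧ gpr U.X a b ≤ (U.gD a b : ℝ) + 1 := by
  have h1 := U.wl_lower a
  have h2 := U.wl_upper a
  have h3 := U.wl_lower b
  have h4 := U.wl_upper b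
  have h5 := U.wl_lower (a⁻¹ * b)
  have h6 := U.wl_upper (a⁻¹ * b)
  rw [Di_inv] at h5 h6
  have e : U.Di 1 a + U.Di 1 b - U.Di a b = 2 * U.gD a b := by
    unfold Di gD
    rw [k_one]; ring
  have k1 : 2 * U.gD a b - 1 ≤ (wlen U.X a : ℤ) + wlen U.X b - wlen U.X (a⁻¹ * b) := by omega
  have k2 : (wlen U.X a : ℤ) + wlen U.X b - wlen U.X (a⁻¹ * b) ≤ 2 * U.gD a b + 2 := by omega
  have k1' : (2 * (U.gD a b : ℝ) - 1) ≤ (wlen U.X a : ℝ) + wlen U.X b - wlen U.X (a⁻¹ * b) := by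
    exact_mod_cast k1
  have k2' : (wlen U.X a : ℝ) + wlen U.X b - wlen U.X (a⁻¹ * b) ≤ 2 * (U.gD a b : ℝ) + 2 := by
    exact_mod_cast k2
  unfold gpr
  constructor <;> linarith

lemma gD_hyp (x y z : A) : min (U.gD x y) (U.gD y z) ≤ U.gD x z := by
  unfold gD
  have a1 := U.lev_ultra x y z
  have a2 := U.lev_ultra 1 x y
  have a3 := U.lev_ultra 1 y x
  have a4 := U.lev_ultra 1 x z
  have a5 := U.lev_ultra 1 z x
  have a6 := U.lev_ultra 1 y z
  have a7 := U.lev_ultra 1 z y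
  have a8 := U.lev_ultra x 1 y
  have a9 := U.lev_ultra x 1 z
  have a10 := U.lev_ultra y 1 z
  have a11 := U.lev_ultra x z y
  have a12 := U.lev_ultra y x z
  have c1 := U.lev_comm x 1
  have c2 := U.lev_comm y 1
  have c3 := U.lev_comm z 1
  have c4 := U.lev_comm y x
  have c5 := U.lev_comm z x
  have c6 := U.lev_comm z y
  omega

lemma X_hyp : IsHyp U.X := by
  refine ⟨2, fun x y z => ?_⟩
  have h1 := U.gpr_bounds x y
  have h2 := U.gpr_bounds y z
  have h3 := U.gpr_bounds x z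
  have h4 := U.gD_hyp x y z
  have h4' : min (U.gD x y : ℝ) (U.gD y z : ℝ) ≤ U.gD x z := by exact_mod_cast h4
  rcases min_le_iff.1 h4' with h5 | h5
  · have := min_le_left (gpr U.X x y) (gpr U.X y z)
    linarith [h1.2, h3.1]
  · have := min_le_right (gpr U.X x y) (gpr U.X y z)
    linarith [h2.2, h3.1]

lemma lox_t : IsLox U.X U.t := by
  refine ⟨1, one_pos, fun n => ?_⟩
  have h1 := U.Di_kappa (U.t ^ n)
  have h2 := U.wl_lower (U.t ^ n)
  rw [k_pow, abs_mul, Nat.abs_cast, U.kt, abs_one, mul_one] at h1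
  rw [one_mul]
  exact_mod_cast h1.trans h2

lemma gD_lower (a b : A) : min (- U.k a) (- U.k b) ≤ U.gD a b := by
  unfold gD
  have a1 := U.lev_le_right 1 a
  have a2 := U.lev_le_right 1 b
  have a3 := U.lev_ultra a 1 b
  rw [U.lev_comm a 1] at a3
  omega

lemma sameLim_of {x y : ℕ → A}
    (h : ∀ K : ℤ, ∃ N : ℕ, ∀ m n : ℕ, N ≤ m → N ≤ n → K ≤ U.gD (x m) (y n)) :
    SameLim U.X x y := by
  intro K
  obtain ⟨N, hN⟩ := h (⌈K⌉ + 1)
  refine ⟨N, fun m n hm hn => ?_⟩
  have h1 := hN m n hm hn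
  have h2 := (U.gpr_bounds (x m) (y n)).1
  have h3 : (⌈K⌉ : ℝ) + 1 ≤ U.gD (x m) (y n) := by exact_mod_cast h1
  have h4 := Int.le_ceil K
  linarith

/-- Conjugates of `s` at increasing heights. -/
def si (i : ℕ) : A := (U.t ^ i)⁻¹ * U.s * U.t ^ i

lemma k_si (i : ℕ) : U.k (U.si i) = 0 := by
  unfold si; simp [U.ks]

lemma R_si (n : ℤ) (i : ℕ) : U.R n 1 (U.si i) ↔ U.R (n + i) 1 U.s := by
  unfold si
  have h1 := U.equiv (U.t ^ i) 1 ((U.t ^ i)⁻¹ * U.s * U.t ^ i) n
  rw [h1, mul_one, k_pow, U.kt, mul_one]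
  have e : U.t ^ i * ((U.t ^ i)⁻¹ * U.s * U.t ^ i) = U.s * U.t ^ i := by group
  rw [e]
  have h2 := U.R_tpow (n + i) 1 i
  have h3 := U.R_tpow (n + i) U.s i
  rw [one_mul] at h2
  constructor
  · intro h; exact U.trans (U.trans h2 h) (U.symm h3)
  · intro h; exact U.trans (U.trans (U.symm h2) h) h3

theorem X_QP : IsQP U.X := by
  refine ⟨⟨U.t, U.lox_t⟩, ⟨fun n => (U.t ^ n)⁻¹, ?_, fun g => ?_⟩,
    ⟨fun i n => U.si i * U.t ^ n, ?_, ?_⟩⟩
  · apply U.sameLim_of
    intro K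
    refine ⟨K.toNat, fun m n hm hn => ?_⟩
    have := U.gD_lower (U.t ^ m)⁻¹ (U.t ^ n)⁻¹
    rw [k_inv, k_inv, k_pow, k_pow, U.kt] at this
    omega
  · apply U.sameLim_of
    intro K
    refine ⟨(K + |U.k g|).toNat, fun m n hm hn => ?_⟩
    show K ≤ U.gD (g * (U.t ^ m)⁻¹) (U.t ^ n)⁻¹
    have := U.gD_lower (g * (U.t ^ m)⁻¹) (U.t ^ n)⁻¹
    rw [k_mul, k_inv, k_inv, k_pow, k_pow, U.kt] at this
    have h1 := le_abs_self (U.k g)
    have h2 := abs_nonneg (U.k g)
    omega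
  · intro i
    apply U.sameLim_of
    intro K
    refine ⟨K.toNat, fun m n hm hn => ?_⟩
    show K ≤ U.gD (U.si i * U.t ^ m) (U.si i * U.t ^ n)
    have h1 : min (m : ℤ) n ≤ U.lev (U.si i * U.t ^ m) (U.si i * U.t ^ n) := by
      rw [le_lev, k_mul, k_mul, k_pow, k_pow, U.kt, k_si]
      refine ⟨by omega, by omega, ?_⟩
      exact U.trans (U.symm (U.R_tpow _ _ m)) (U.R_tpow _ _ n)
    have h2 := U.lev_le_left 1 (U.si i * U.t ^ m)
    have h3 := U.lev_le_left 1 (U.si i * U.t ^ n)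
    rw [k_one] at h2 h3
    unfold gD
    omega
  · -- the level of s
    have hv : ∃ v : ℤ, v < 0 ∧ ∀ n : ℤ, U.R n 1 U.s ↔ n ≤ v := by
      obtain ⟨N, hN⟩ := U.ex 1 U.s
      obtain ⟨v, h1, h2⟩ := Int.exists_greatest_of_bdd (P := fun n => U.R n 1 U.s)
        ⟨0, fun z hz => by
          by_contra hlt
          exact U.Rs (U.mono (by omega) hz)⟩ ⟨N, hN⟩
      refine ⟨v, ?_, fun n => ⟨fun h => h2 n h, fun h => U.mono h h1⟩⟩
      by_contra hlt
      exact U.Rs (U.mono (by omega) h1)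
    obtain ⟨v, hv0, hv⟩ := hv
    have key : ∀ i j : ℕ, i < j → ¬ SameLim U.X (fun n => U.si i * U.t ^ n)
        (fun n => U.si j * U.t ^ n) := by
      intro i j hij hse
      obtain ⟨N, hN⟩ := hse (i + j - 2 * v + 2)
      have h1 := hN N N le_rfl le_rfl
      have h2 := (U.gpr_bounds (U.si i * U.t ^ N) (U.si j * U.t ^ N)).2
      have h3 : U.lev (U.si i * U.t ^ N) (U.si j * U.t ^ N) < 0 := by
        by_contra hge
        have h4 := U.mono (m := v - j + 1) (by omega) (U.lev_R (U.si i * U.t ^ N) (U.si j * U.t ^ N))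
        have h5 := U.R_tpow (v - j + 1) (U.si i) N
        have h6 := U.R_tpow (v - j + 1) (U.si j) N
        have h7 : U.R (v - j + 1) (U.si i) (U.si j) := U.trans (U.trans h5 h4) (U.symm h6)
        have h8 : U.R (v - j + 1) 1 (U.si i) := by
          rw [R_si, hv]; omega
        have h9 := U.trans h8 h7
        rw [R_si, hv] at h9
        omega
      have hl : ∀ i : ℕ, v - i ≤ U.lev 1 (U.si i * U.t ^ N) := by
        intro i
        rw [le_lev, k_one, k_mul, k_si, k_pow, U.kt]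
        refine ⟨by omega, by omega, ?_⟩
        have h8 : U.R (v - i) 1 (U.si i) := by
          rw [R_si, hv]; omega
        exact U.trans h8 (U.R_tpow _ _ N)
      have a1 := hl i
      have a2 := hl j
      have h4 : U.gD (U.si i * U.t ^ N) (U.si j * U.t ^ N) ≤ i + j - 2 * v := by
        unfold gD
        omega
      have h5 : (U.gD (U.si i * U.t ^ N) (U.si j * U.t ^ N) : ℝ) ≤ i + j - 2 * v := by
        exact_mod_cast h4
      linarith
    intro i j hij hse
    rcases lt_or_gt_of_ne hij with h | h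
    · exact key i j h hse
    · apply key j i h
      intro K
      obtain ⟨N, hN⟩ := hse K
      refine ⟨N, fun m n hm hn => ?_⟩
      have h1 := hN n m hn hm
      unfold gpr at h1 ⊢
      have h2 := wlen_inv U.closure_X ((U.si j * U.t ^ m)⁻¹ * (U.si i * U.t ^ n))
      rw [mul_inv_rev, inv_inv] at h2
      rw [← h2]
      linarith

end UM

end Pool.Agent.X185.HS
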